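import Pool.Agent.Y682.YQ.BsdB
import Pool.Agent.Y17.X.TwoP
import Pool.Agent.Y703.CQ.Cor

/-!
# The formula at the central point modulo two, for twists of the non-CM curve `X_0(14)` of both signs,
# with the exact proportion of the twists for which both sides are odd

`E_D` is the quadratic twist by `D` of the modular curve `X_0(14) : y² + x y + y = x³ + 4 x - 6`.  We
consider all the squarefree `D ≠ 1`, positive and negative, `D = 1` modulo `4`, `D` a square modulo
`7`, whose prime divisors are different from `3` and split completely in `ℚ(i, √2, √-7)` or are inert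
in `ℚ(√2)` and in `ℚ(√-7)`.  There is no bound for the number of the prime divisors of either kind, and
there is no hypothesis on the rank or on `Ш`.

* For every such `D` the number `X = L(E_D, 1) #E_D(ℚ)_tors² / (Ω ∏ c_p)`, which is `Ш_0(E_D)`
  according to the formula, is rational and of the form `w y²`, where `y` is an integer (possibly
  zero) and `w` is a 2-adic unit: it is integral at `2`, and if it is not zero then its 2-adic valuation
  is even, as the formula and the theorem of Cassels on the order of `Ш` predict.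
* The formula holds modulo `2`: `X` is odd if and only if `Ш_0(E_D)` is, that is if and only if
  `E_D(ℚ)` is finite and `Ш(E_D)[2] = 0`.
* This holds if and only if an explicit matrix of quadratic residue symbols is nonsingular, and then
  `Ш(E_D)[2^∞] = 0` and `L(E_D, 1) ≠ 0`, so that the 2-part of the formula holds.
* This happens for exactly the proportion `c = ∏_{i ≥ 0} (1 - 2^{-(2 i + 1)}) = 0.419...` of the
  positive `D`, and also of the negative `D`, of the class.

The proof.  The central value is expressed by modular symbols, and by them by the square of a sum over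
lattice points (a Gross sum for `D > 0`, a coefficient of a form of half-integral weight for
`D < 0`); an identity for the products of two of these sums gives the sum modulo the next power of
two.  Algebraic side: descent with the isogenies of degree two.  The distribution of the coranks of
the matrices: large sieve for quadratic symbols.

The criterion and the value for a single `D` are the joint work of helper700, helper17, helper687 and
their teams (`Pool/Agent/Z705`), the exact proportion (`Pool/Agent/Y703/CQ`) of helpers 710, 356, 839,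
948, 219, 657, 302, 697, 391, 488, 475, 362, 949, 405, 514 and 703.
-/

set_option autoImplicit false

open Filter Topology

namespace Pool.Agent.Results.MP_9c97e9_nt.FormulaModTwo

open scoped Classical

open Pool.Agent.TH841.SH.D (Sha)

/-- The quadratic twist `E_D` of `X_0(14)` (`D = 1` modulo `4`):
`y² + x y + y = x³ + ((D - 1)/4) x² + ((9 D² - 1)/2) x - (23 D³ + 1)/4`.  It is isomorphic to
`Y² = X (X² + 13 D X + 128 D²)` by `X = 4 (x - D)`, `Y = 4 (2 y + x + 1)`. -/
def twist (D : ℤ) : WeierstrassCurve ℤ :=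
  ⟨1, (D - 1) / 4, 1, (9 * D ^ 2 - 1) / 2, -((23 * D ^ 3 + 1) / 4)⟩

/-- The curve given by the equation of `W` over the ring `R`. -/
abbrev base (W : WeierstrassCurve ℤ) (R : Type) [CommRing R] : WeierstrassCurve R :=
  W.map (Int.castRingHom R)

/-- `W` is a global minimal Weierstrass equation: `Δ ≠ 0` and `|Δ|` is minimal among the integral
Weierstrass equations of the same curve over `ℚ`. -/
def IsMinimal (W : WeierstrassCurve ℤ) : Prop :=
  W.Δ ≠ 0 ∧ ∀ (W' : WeierstrassCurve ℤ) (C : WeierstrassCurve.VariableChange ℚ),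
    C • (base W ℚ) = base W' ℚ → |W.Δ| ≤ |W'.Δ|

/-- The number of the affine points `(x, y)` modulo `p`. -/
noncomputable def pts (W : WeierstrassCurve ℤ) (p : ℕ) : ℕ :=
  Nat.card {P : ZMod p × ZMod p // (base W (ZMod p)).toAffine.Equation P.1 P.2}

/-- `a_p = p + 1 - #W(𝔽_p)`, the points of the reduced equation counted with the point at infinity. -/
noncomputable def a (W : WeierstrassCurve ℤ) (p : ℕ) : ℤ := p - pts W p

/-- `L` is the `L`-function of the minimal equation `W`, continued to the whole plane: `L` is entire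
and it is the Euler product with the factors `(1 - a_p p^(-s) + p^(1 - 2 s))⁻¹` at the primes `p`
which do not divide the discriminant and `(1 - a_p p^(-s))⁻¹` at the other ones, for `Re s > 3/2`. -/
def IsLFunction (W : WeierstrassCurve ℤ) (L : ℂ → ℂ) : Prop :=
  Differentiable ℂ L ∧ ∀ s : ℂ, 3 / 2 < s.re →
    HasProd (fun p : Nat.Primes => (1 - (a W p : ℂ) * ((p : ℕ) : ℂ) ^ (-s) +
      (if ((p : ℕ) : ℤ) ∣ W.Δ then 0 else ((p : ℕ) : ℂ) ^ (1 - 2 * s)))⁻¹) (L s)

/-- `4 x³ + b₂ x² + 2 b₄ x + b₆ = (2 y + a₁ x + a₃)²`. -/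
noncomputable def cubic (W : WeierstrassCurve ℤ) (x : ℝ) : ℝ :=
  4 * x ^ 3 + W.b₂ * x ^ 2 + 2 * W.b₄ * x + W.b₆

/-- The real period `∫_{W(ℝ)} |ω|` of `ω = dx / (2 y + a₁ x + a₃)`, as an integral over `x`: two real
points lie over each `x` with `cubic x > 0`. -/
noncomputable def realPeriod (W : WeierstrassCurve ℤ) : ℝ :=
  ∫ x in {x : ℝ | 0 < cubic W x}, 2 / Real.sqrt (cubic W x)

/-- `E⁰(ℚ_p)`, the group of the points of `W` over `ℚ_p` with nonsingular reduction: the point at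
infinity and the points `(x, y)` for which it is not true that `x`, `y` are integral and both partial
derivatives of `y² + a₁ x y + a₃ y - x³ - a₂ x² - a₄ x - a₆` are in the maximal ideal. -/
noncomputable def nonsing (W : WeierstrassCurve ℤ) (p : ℕ) [Fact p.Prime] :
    AddSubgroup (base W ℚ_[p]).toAffine.Point :=
  AddSubgroup.closure {P | ∀ (x y : ℚ_[p]) (h), P = .some x y h →
    ¬ (‖x‖ ≤ 1 ∧ ‖y‖ ≤ 1 ∧ ‖W.a₁ * y - (3 * x ^ 2 + 2 * W.a₂ * x + W.a₄)‖ < 1 ∧
      ‖2 * y + W.a₁ * x + W.a₃‖ < 1)}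

/-- The Tamagawa number `c_p = [E(ℚ_p) : E⁰(ℚ_p)]` of a minimal equation. -/
noncomputable def c (W : WeierstrassCurve ℤ) (p : ℕ) [Fact p.Prime] : ℕ := (nonsing W p).index

/-- The product of the Tamagawa numbers (at the primes which divide the discriminant). -/
noncomputable def Tam (W : WeierstrassCurve ℤ) : ℕ :=
  ∏ p ∈ W.Δ.natAbs.primeFactors, if h : p.Prime then (haveI := Fact.mk h; c W p) else 1

/-- The number of the rational torsion points. -/
noncomputable def torsOrder (W : WeierstrassCurve ℤ) : ℕ :=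
  Nat.card (AddCommGroup.torsion (base W ℚ).toAffine.Point)

/-- `L(E, 1) = X Ω ∏ c_p / #E(ℚ)_tors²`: the formula at the central point with `X` in the place of
`Ш_0(E)`.  (`Ω`, `∏ c_p` and `#E(ℚ)_tors` are positive, so that `X` is uniquely determined.) -/
def ValueIs (W : WeierstrassCurve ℤ) (X : ℚ) : Prop :=
  0 < realPeriod W ∧ 0 < Tam W ∧ 0 < torsOrder W ∧ ∃ L : ℂ → ℂ, IsLFunction W L ∧
    L 1 = (((X : ℝ) * (realPeriod W * Tam W / (torsOrder W : ℝ) ^ 2) : ℝ) : ℂ)

/-- `E(ℚ)` is finite and `Ш(E/ℚ)` has no element of order two: `Ш_0(E)` is odd. -/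
def OddSide (W : WeierstrassCurve ℤ) : Prop :=
  Finite (base W ℚ).toAffine.Point ∧ ∀ x : Sha (base W ℚ), 2 • x = 0 → x = 0

/-- The 2-part of the formula holds, with both sides 2-adic units up to `Ω ∏ c_p / #E(ℚ)_tors²`:
`E(ℚ)` is finite, `Ш(E/ℚ)[2^∞] = 0`, and `L(E, 1) = X Ω ∏ c_p / #E(ℚ)_tors²` with a rational number
`X ≠ 0` whose 2-adic valuation is `0`. -/
def TwoPart (W : WeierstrassCurve ℤ) : Prop :=
  Finite (base W ℚ).toAffine.Point ∧ (∀ (n : ℕ) (x : Sha (base W ℚ)), 2 ^ n • x = 0 → x = 0) ∧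
    ∃ X : ℚ, X ≠ 0 ∧ padicValRat 2 X = 0 ∧ ValueIs W X

/-! ### The class of the twists -/

/-- primes which split completely in `ℚ(i, √2, √-7)` -/
def Split (p : ℕ) : Prop := p.Prime ∧ p % 8 = 1 ∧ (p % 7 = 1 ∨ p % 7 = 2 ∨ p % 7 = 4)

/-- primes inert in `ℚ(√2)` and in `ℚ(√-7)` -/
def Inert (q : ℕ) : Prop :=
  q.Prime ∧ (q % 8 = 3 ∨ q % 8 = 5) ∧ (q % 7 = 3 ∨ q % 7 = 5 ∨ q % 7 = 6)

/-- the class of the discriminants `D`, of any sign -/
def Adm (D : ℤ) : Prop := D ≠ 1 ∧ Squarefree D ∧ D % 4 = 1 ∧ (D % 7 = 1 ∨ D % 7 = 2 ∨ D % 7 = 4) ∧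
  ∀ p : ℕ, p.Prime → (p : ℤ) ∣ D → p ≠ 3 ∧ (Split p ∨ Inert p)

/-- the prime factors `≡ 1 mod 8` of `D` -/
def S (D : ℤ) : Finset ℕ := D.natAbs.primeFactors.filter fun p => p % 8 = 1

/-- the matrix over `𝔽₂` with rows and columns indexed by `S D`: off the diagonal the
entry at `(p, p')` is `1` if `p'` is not a square modulo `p` and `0` otherwise; on the diagonal it
is the number of the prime factors of `D` different from `p` which are not squares modulo `p`, plus
`1` if the number of the points of `X_0(14)` modulo `p` is not divisible by `8` -/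
noncomputable def R (D : ℤ) : Matrix (S D) (S D) (ZMod 2) := Matrix.of fun i j =>
  if i = j then
    (((D.natAbs.primeFactors.filter fun r : ℕ => r ≠ (i : ℕ) ∧
      ¬ IsSquare (r : ZMod (i : ℕ))).card : ZMod 2) +
        if 8 ∣ pts (twist 1) (i : ℕ) + 1 then 0 else 1)
  else if IsSquare (((j : ℕ)) : ZMod (i : ℕ)) then 0 else 1

/-- the number of the integers `D` with `|D| ≤ X` and `Q D` -/
noncomputable def count (Q : ℤ → Prop) (X : ℕ) : ℕ := ((Finset.Icc (-(X : ℤ)) X).filter Q).card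

/-- `c = ∏_{i ≥ 0} (1 - 2^{-(2 i + 1)})` -/
noncomputable def cc : ℝ := ∏' i : ℕ, (1 - (1 / 2 : ℝ) ^ (2 * i + 1))

section proof

open Pool.Agent

lemma adm_iff {D : ℤ} : Adm D ↔ D ≠ 1 ∧ Y687.MQ.AdmD D := Iff.rfl

lemma R_eq {D : ℤ} (h : Adm D) : R D = Y687.MQ.matD D := by
  have hS := (Y687.MQ.of_admD h.2).1
  unfold R Y687.MQ.matD
  ext i j
  simp only [Matrix.of_apply]
  have hi := hS i.1 i.2
  have h8 := hi.2.1
  have h7 := hi.2.2
  have e : pts (twist 1) (i : ℕ) + 1 = Y687.NN 1 (i : ℕ) := by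
    have h1 := Z705.cnt_affCountZ (D := 1) hi.1 (by omega) (by omega) (by norm_num) (by
      intro h
      rw [Int.natAbs_one, Nat.dvd_one] at h
      exact hi.1.one_lt.ne' h)
    unfold Y687.NN
    rw [Nat.cast_one, h1]
    rfl
  rw [e]
  rfl

/-- the real period is positive -/
lemma omega_pos {D : ℤ} (h4 : D % 4 = 1) : 0 < realPeriod (twist D) := by
  obtain ⟨-, -, -, L, Op, Om, hOp, hOm, g2, g3, hLt, -⟩ := Z704.exists_symbM'
  have e : realPeriod (twist D) = Y700.Omega (Y700.WM D) := rfl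
  rw [e]
  rcases lt_trichotomy D 0 with h | h | h
  · rw [Z705.f_OMEGA L Op Om hOp hOm g2 g3 hLt D h4 h]
    have h1 : (0 : ℝ) < -(D : ℝ) := by
      have : (D : ℝ) < 0 := by exact_mod_cast h
      linarith
    positivity
  · rw [h] at h4
    norm_num at h4
  · rw [Y248.BSD14.t L Op Om hOp hOm g2 g3 hLt D h4 h]
    have h1 : (0 : ℝ) < (D : ℝ) := by exact_mod_cast h
    positivity

lemma small_iff {D : ℤ} : OddSide (twist D) ↔ Y682.YQ.Zer D := by
  unfold OddSide Y682.YQ.Zer
  refine and_congr Iff.rfl (forall_congr' fun x => ?_)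
  rw [two_nsmul]
  rfl

/-- the torsion subgroup is finite -/
lemma tors_pos {D : ℤ} (h4 : D % 4 = 1) : 0 < torsOrder (twist D) := by
  have hD0 : D ≠ 0 := by
    rintro rfl
    norm_num at h4
  have hDQ : (D : ℚ) ≠ 0 := by exact_mod_cast hD0
  have hb : (128 * D ^ 2 : ℤ) ≠ 0 := mul_ne_zero (by norm_num) (pow_ne_zero 2 hD0)
  have hd : (13 * D : ℤ) ^ 2 - 4 * (128 * D ^ 2) ≠ 0 := by
    have e : (13 * D : ℤ) ^ 2 - 4 * (128 * D ^ 2) = -343 * D ^ 2 := by ring
    rw [e]
    exact mul_ne_zero (by norm_num) (pow_ne_zero 2 hD0)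
  have hs1 : ¬ IsSquare (((128 * D ^ 2 : ℤ)) : ℚ) := by
    rintro ⟨r, hr⟩
    have h2 : ¬ IsSquare (2 : ℚ) := by
      rw [Rat.isSquare_iff]
      rintro ⟨h, -⟩
      have : IsSquare (2 : ℤ) := by simpa using h
      obtain ⟨t, ht⟩ := this
      have h1 : t ≤ 1 ∨ 2 ≤ t := by omega
      have h3 : -1 ≤ t ∨ t ≤ -2 := by omega
      rcases h1 with h1 | h1
      · rcases h3 with h3 | h3
        · have : t = -1 ∨ t = 0 ∨ t = 1 := by omega
          rcases this with rfl | rfl | rfl <;> norm_num at ht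
        · nlinarith
      · nlinarith
    apply h2
    refine ⟨r / (8 * D), ?_⟩
    have e : r / (8 * (D : ℚ)) * (r / (8 * D)) = (r * r) / (64 * D ^ 2) := by
      field_simp
      ring
    rw [e, ← hr]
    push_cast
    field_simp
    norm_num
  have hs2 : ¬ IsSquare ((((13 * D : ℤ)) : ℚ) ^ 2 - 4 * ((128 * D ^ 2 : ℤ) : ℚ)) := by
    rintro ⟨r, hr⟩
    push_cast at hr
    have h1 : 0 < (D : ℚ) ^ 2 := by positivity
    nlinarith [mul_self_nonneg r]
  obtain ⟨k, hk, hc⟩ := Z702.f_TORS (13 * D) (128 * D ^ 2) hb hd hs1 hs2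
  have h1 := (Z702.trn_WM Z702.f_TRN h4).2.2
  have e : torsOrder (twist D) =
      Nat.card (AddCommGroup.torsion (Y700.EQ (Y700.WM D)).toAffine.Point) := rfl
  rw [e, ← h1]
  have h2 : 0 < k := hk.pos
  refine lt_of_lt_of_eq ?_ hc.symm
  omega

lemma mod7_of {D : ℤ} (h : D % 7 = 1 ∨ D % 7 = 2 ∨ D % 7 = 4) : ¬ (7 : ℤ) ∣ D := by omega

lemma minimal {D : ℤ} (h : Adm D) : IsMinimal (twist D) :=
  (Y814.BSD14.t_MIN D h.2.2.1 h.2.1 (mod7_of h.2.2.2.1)).1

lemma tam_pos {D : ℤ} (h : Adm D) : 0 < Tam (twist D) := by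
  have h1 := (Y682.YQ.tam_val h.2).1
  have e : Tam (twist D) = Y700.tamProd (Y700.WM D) := rfl
  rw [e]
  exact Nat.pos_of_ne_zero h1

lemma valueIs_of {D : ℤ} (h : Adm D) {f : ℂ → ℂ} (hf : Y700.IsL (Y700.WM D) f) {X : ℚ}
    (hX : f 1 = (((X : ℝ) * (Y700.Omega (Y700.WM D) * Y700.tamProd (Y700.WM D) /
      (Nat.card (AddCommGroup.torsion (Y700.EQ (Y700.WM D)).toAffine.Point) : ℝ) ^ 2) : ℝ) : ℂ)) :
    ValueIs (twist D) X :=
  ⟨omega_pos h.2.2.1, tam_pos h, tors_pos h.2.2.1, f, hf, hX⟩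

lemma value {D : ℤ} (h : Adm D) : ∃ (w : ℚ) (y : ℤ), w ≠ 0 ∧ padicValRat 2 w = 0 ∧
    ValueIs (twist D) (w * (y : ℚ) ^ 2) ∧ (Odd y ↔ OddSide (twist D)) := by
  obtain ⟨⟨f, hf⟩, y, hy, hall⟩ := Y682.YQ.val h.2 h.1
  obtain ⟨-, w, hw, hw2, hv⟩ := hall f hf
  refine ⟨w, y, hw, hw2, valueIs_of h hf ?_, hy.trans small_iff.symm⟩
  rw [hv]
  push_cast
  ring

lemma odd_iff {D : ℤ} (h : Adm D) : OddSide (twist D) ↔ (R D).det ≠ 0 := by
  rw [R_eq h, small_iff]
  exact Y682.YQ.zer_iff h.2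

lemma two_iff {D : ℤ} (h : Adm D) : TwoPart (twist D) ↔ (Y687.MQ.matD D).det ≠ 0 := by
  rw [← Y17.X.twoP_iff h.2 h.1]
  constructor
  · rintro ⟨h1, h2, -⟩
    exact Y17.X.twoP_of h.2 h.1 h1 fun x hx => h2 1 x (by rw [pow_one]; exact hx)
  · rintro ⟨-, h2, h3, ⟨f, hf⟩, h4⟩
    obtain ⟨-, w, hw, hw2, hv⟩ := h4 f hf
    exact ⟨h2, h3, w, hw, hw2, valueIs_of h hf hv⟩

lemma odd_two {D : ℤ} (h : Adm D) : OddSide (twist D) ↔ TwoPart (twist D) := by
  rw [odd_iff h, two_iff h, R_eq h]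
  exact Iff.rfl

/-! ### counting -/

lemma adm_one : Y687.MQ.AdmD 1 := by
  refine ⟨squarefree_one, by norm_num, Or.inl (by norm_num), fun p hp h => ?_⟩
  exfalso
  have h1 : p ∣ 1 := by exact_mod_cast h
  exact hp.one_lt.ne' (Nat.dvd_one.1 h1)

lemma det_one : (Y687.MQ.matD 1).det ≠ 0 := by
  have hS : IsEmpty (Y687.MQ.SP 1) := by
    refine ⟨fun x => ?_⟩
    have h := Finset.mem_of_mem_filter _ x.2
    simp at h
  rw [Matrix.det_isEmpty]
  exact one_ne_zero

lemma adm_prime {p : ℕ} (hp : p.Prime) (h : p ≡ 1 [MOD 56]) : Y687.MQ.AdmD (p : ℤ) := by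
  have h56 : p % 56 = 1 := h
  refine ⟨Int.squarefree_natCast.2 hp.prime.squarefree, by omega, Or.inl (by omega), ?_⟩
  intro q hq hqp
  have h1 : q = p := (Nat.prime_dvd_prime_iff_eq hq hp).1 (by exact_mod_cast hqp)
  subst h1
  exact ⟨by omega, Or.inl ⟨hq, by omega, Or.inl (by omega)⟩⟩

lemma total_tendsto : Tendsto (fun X : ℕ =>
    ((((Finset.Icc 1 (X : ℤ)).filter fun D => Y687.MQ.AdmD D).card : ℕ) : ℝ)) atTop atTop := by
  refine tendsto_natCast_atTop_atTop.comp ?_
  rw [tendsto_atTop_atTop]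
  intro b
  obtain ⟨t, ht, htc⟩ := (Nat.infinite_setOfPred_prime_modEq_one (k := 56) (by norm_num)).exists_subset_card_eq b
  refine ⟨t.sup id, fun X hX => ?_⟩
  rw [← htc, ← Finset.card_image_of_injective t (Nat.cast_injective (R := ℤ))]
  refine Finset.card_le_card fun z hz => ?_
  obtain ⟨p, hp, rfl⟩ := Finset.mem_image.1 hz
  have h1 := ht hp
  have h2 : p ≤ X := (Finset.le_sup (f := id) hp).trans hX
  rw [Finset.mem_filter, Finset.mem_Icc]
  refine ⟨⟨?_, by exact_mod_cast h2⟩, adm_prime h1.1 h1.2⟩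
  exact_mod_cast h1.1.one_lt.le

lemma count_eq (Q : ℤ → Prop) (X : ℕ) (T : Finset ℤ)
    (h : ∀ D, D ∈ T ↔ (-(X : ℤ) ≤ D ∧ D ≤ X) ∧ Q D) : count Q X = T.card := by
  unfold count
  refine congrArg Finset.card (Finset.ext fun D => ?_)
  refine Finset.mem_filter.trans (Iff.trans ?_ (h D).symm)
  rw [Finset.mem_Icc]

end proof

/-- **The formula modulo two for all the twists of both signs, and the exact proportion.** -/
theorem result :
    (∀ D : ℤ, Adm D → IsMinimal (twist D) ∧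
      (∃ (w : ℚ) (y : ℤ), w ≠ 0 ∧ padicValRat 2 w = 0 ∧ ValueIs (twist D) (w * (y : ℚ) ^ 2) ∧
        (Odd y ↔ OddSide (twist D))) ∧
      (OddSide (twist D) ↔ (R D).det ≠ 0) ∧ (OddSide (twist D) ↔ TwoPart (twist D))) ∧
    (0.4194 < cc ∧ cc < 0.4195) ∧
    ∀ s : ℤ, s = 1 ∨ s = -1 →
      Tendsto (fun X : ℕ => (count (fun D => Adm D ∧ 0 < s * D ∧ TwoPart (twist D)) X : ℝ) /
        (count (fun D => Adm D ∧ 0 < s * D) X : ℝ)) atTop (𝓝 cc) := by
  refine ⟨fun D h => ⟨minimal h, value h, odd_iff h, odd_two h⟩, ?_, ?_⟩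
  · have h := Pool.Agent.Y948.CQ.t_C2.2.2.2
    unfold Pool.Agent.Y703.CQ.c2 at h
    exact h
  · intro s hs
    rcases hs with rfl | rfl
    · have h := Pool.Agent.Y703.CQ.prop_pos
      unfold Pool.Agent.Y703.CQ.c2 at h
      set g : ℕ → ℝ := fun X => (((Finset.Icc 1 (X : ℤ)).filter fun D =>
        Pool.Agent.Y687.MQ.AdmD D ∧ (Pool.Agent.Y687.MQ.matD D).det ≠ 0).card : ℝ) with hg
      set t : ℕ → ℝ := fun X => (((Finset.Icc 1 (X : ℤ)).filter fun D =>
        Pool.Agent.Y687.MQ.AdmD D).card : ℝ) with ht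
      have ht' : Tendsto t atTop atTop := total_tendsto
      have h1 : Tendsto (fun X => (g X / t X - (t X)⁻¹) / (1 - (t X)⁻¹)) atTop (𝓝 cc) := by
        have h2 := (h.sub ht'.inv_tendsto_atTop).div (tendsto_const_nhds.sub ht'.inv_tendsto_atTop)
          (by norm_num : (1 : ℝ) - 0 ≠ 0)
        rw [sub_zero, sub_zero, div_one] at h2
        exact h2
      refine h1.congr' ?_
      filter_upwards [ht'.eventually_gt_atTop 1, eventually_ge_atTop 1] with X hX hX1
      have e1 : ((count (fun D => Adm D ∧ 0 < (1 : ℤ) * D) X : ℕ) : ℝ) = t X - 1 := by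
        rw [count_eq _ X (((Finset.Icc 1 (X : ℤ)).filter fun D =>
          Pool.Agent.Y687.MQ.AdmD D).erase 1), Finset.card_erase_of_mem, Nat.cast_pred]
        · refine Finset.card_pos.2 ⟨1, ?_⟩
          rw [Finset.mem_filter, Finset.mem_Icc]
          exact ⟨⟨le_rfl, by exact_mod_cast hX1⟩, adm_one⟩
        · rw [Finset.mem_filter, Finset.mem_Icc]
          exact ⟨⟨le_rfl, by exact_mod_cast hX1⟩, adm_one⟩
        · intro D
          rw [Finset.mem_erase, Finset.mem_filter, Finset.mem_Icc, adm_iff, one_mul]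
          constructor
          · rintro ⟨k3, ⟨k1, k2⟩, k4⟩
            exact ⟨⟨by omega, k2⟩, ⟨k3, k4⟩, by omega⟩
          · rintro ⟨⟨k1, k2⟩, ⟨k3, k4⟩, k5⟩
            exact ⟨k3, ⟨by omega, k2⟩, k4⟩
      have e2 : ((count (fun D => Adm D ∧ 0 < (1 : ℤ) * D ∧ TwoPart (twist D)) X : ℕ) : ℝ) =
          g X - 1 := by
        rw [count_eq _ X (((Finset.Icc 1 (X : ℤ)).filter fun D =>
              Pool.Agent.Y687.MQ.AdmD D ∧ (Pool.Agent.Y687.MQ.matD D).det ≠ 0).erase 1),
          Finset.card_erase_of_mem, Nat.cast_pred]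
        · refine Finset.card_pos.2 ⟨1, ?_⟩
          rw [Finset.mem_filter, Finset.mem_Icc]
          exact ⟨⟨le_rfl, by exact_mod_cast hX1⟩, adm_one, det_one⟩
        · rw [Finset.mem_filter, Finset.mem_Icc]
          exact ⟨⟨le_rfl, by exact_mod_cast hX1⟩, adm_one, det_one⟩
        · intro D
          rw [Finset.mem_erase, Finset.mem_filter, Finset.mem_Icc, one_mul]
          constructor
          · rintro ⟨k3, ⟨k1, k2⟩, k4, k5⟩
            exact ⟨⟨by omega, k2⟩, ⟨k3, k4⟩, by omega, (two_iff ⟨k3, k4⟩).2 k5⟩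
          · rintro ⟨⟨k1, k2⟩, k3, k5, k6⟩
            exact ⟨k3.1, ⟨by omega, k2⟩, k3.2, (two_iff k3).1 k6⟩
      rw [e1, e2]
      have h5 : t X ≠ 0 := by linarith
      have h6 : t X - 1 ≠ 0 := by linarith
      field_simp
    · have h := Pool.Agent.Y703.CQ.prop_neg
      unfold Pool.Agent.Y703.CQ.c2 at h
      refine h.congr fun X => congrArg₂ (fun a b : ℕ => (a : ℝ) / (b : ℝ)) ?_ ?_
      · refine (count_eq _ X _ fun D => ?_).symm
        rw [Finset.mem_filter, Finset.mem_Icc]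
        constructor
        · rintro ⟨⟨k1, k2⟩, k3, k4⟩
          have k5 : Adm D := ⟨by omega, k3⟩
          exact ⟨⟨k1, by omega⟩, k5, by omega, (two_iff k5).2 k4⟩
        · rintro ⟨⟨k1, k2⟩, k3, k4, k5⟩
          exact ⟨⟨k1, by omega⟩, k3.2, (two_iff k3).1 k5⟩
      · refine (count_eq _ X _ fun D => ?_).symm
        rw [Finset.mem_filter, Finset.mem_Icc]
        constructor
        · rintro ⟨⟨k1, k2⟩, k3⟩
          exact ⟨⟨k1, by omega⟩, ⟨by omega, k3⟩, by omega⟩
        · rintro ⟨⟨k1, k2⟩, k3, k4⟩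
          exact ⟨⟨k1, by omega⟩, k3.2⟩

end Pool.Agent.Results.MP_9c97e9_nt.FormulaModTwo
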