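import Mathlib
import Pool.Agent.Q17.QF.Pos
import Pool.Agent.Q17.LS.Cdr

/-!
# Rank zero and the exact 2-primary part of the Tate-Shafarevich group, by conductor

The elliptic curves `E` over `ℚ` with a rational cyclic subgroup of order 4, ordered by the conductor,
without any bound on the height or on the discriminant. For 100 percent of them, and for 100 percent
of their quadratic twists by any fixed integer `D`, the order of the group of the elements of `Ш` killed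
by 2 is `2 ^ k` with `k` near `(3 / 2) log log Z`. For every `m` a positive proportion of the curves has
the following property for one tuple `(d_1, ..., d_m)` of a finite list: all the `2 ^ m` quadratic
twists `E^D`, `D` the products of some of the `d_i` (among them `E`), have rank zero, and the 2-primary
parts of their Tate-Shafarevich groups are finite, isomorphic to `(ℤ / 2) ^ k` with `k` near
`(3 / 2) log log Z`.

The Tate-Shafarevich group is that of `Pool.Agent.TH841.SH.ShaDef`: continuous cocycles of the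
absolute Galois group of `ℚ` with values in the points over the algebraic closure, locally trivial at
all the places of `ℚ`, modulo the coboundaries. The condition `Cyclic4 A B` is defined in
`Pool.Agent.Q17.IG.Cyc`: there is a point `P` of order 4 of `y² = x³ + A x + B` over the algebraic
closure of `ℚ` such that `σ P = P` or `σ P = -P` for all automorphisms `σ`.
-/

set_option autoImplicit false

namespace Pool.Agent.Results.MP_9c97e9_nt.RankZeroLargeSha

open Finset Filter Topology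

open Pool.Agent.TH841.SH.D (Sha rk)

open Pool.Agent.Q17.IG (Cyclic4)

/-- the quadratic twist by `D` of the curve `y² = x³ + A x + B`, `c = (A, B)`: the curve
`y² = x³ + D² A x + D³ B` -/
def E (D : ℤ) (c : ℤ × ℤ) : WeierstrassCurve ℚ :=
  ⟨0, 0, 0, ((D ^ 2 * c.1 : ℤ) : ℚ), ((D ^ 3 * c.2 : ℤ) : ℚ)⟩

/-- The prime-to-6 part of the conductor of `y² = x³ + A x + B` (there is no prime `p` with `p⁴ ∣ A`
and `p⁶ ∣ B`): the product over the primes `p ≥ 5` dividing `4 A³ + 27 B²` of `p` (multiplicative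
reduction: `p ∤ A`) or `p²` (additive reduction: `p ∣ A`) -/
def Cond6 (c : ℤ × ℤ) : ℕ :=
  ∏ p ∈ (Int.natAbs (4 * c.1 ^ 3 + 27 * c.2 ^ 2)).primeFactors.filter (fun p => 5 ≤ p),
    if (p : ℤ) ∣ c.1 then p ^ 2 else p

/-- the admissible factors: functions with values between `1` and `2 ^ 8 * 3 ^ 5`, for instance the
part of the conductor composed of the primes 2 and 3, or `f = 1` -/
def Factor (f : ℤ × ℤ → ℕ) : Prop := ∀ c, 1 ≤ f c ∧ f c ≤ 2 ^ 8 * 3 ^ 5

open Classical in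
/-- The pairs `(A, B)` of integers such that `4 A³ + 27 B² ≠ 0`, there is no prime `p` with
`p⁴ ∣ A` and `p⁶ ∣ B`, `y² = x³ + A x + B` has a rational cyclic subgroup of order 4, and
`f * Cond6 ≤ Z` (for a suitable factor `f`: the conductor is at most `Z`). Every elliptic curve over
`ℚ` with a rational cyclic subgroup of order 4 is isomorphic to `y² = x³ + A x + B` for exactly one
pair with the first three properties. -/
def Fam (f : ℤ × ℤ → ℕ) (Z : ℕ) : Set (ℤ × ℤ) :=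
  {c : ℤ × ℤ | 4 * c.1 ^ 3 + 27 * c.2 ^ 2 ≠ 0 ∧
    (∀ p : ℕ, p.Prime → ¬ ((p : ℤ) ^ 4 ∣ c.1 ∧ (p : ℤ) ^ 6 ∣ c.2)) ∧
    Cyclic4 c.1 c.2 ∧ f c * Cond6 c ≤ Z}

/-- the proportion of the curves of `S` in the family -/
noncomputable def proportion (f : ℤ × ℤ → ℕ) (S : Set (ℤ × ℤ)) (Z : ℕ) : ℝ :=
  ((Fam f Z ∩ S).ncard : ℝ) / (Fam f Z).ncard

/-- `k` is near `(3 / 2) log log Z` -/
def Near (η : ℝ) (Z k : ℕ) : Prop :=
  |(k : ℝ) - 3 / 2 * Real.log (Real.log Z)| ≤ η * Real.log (Real.log Z)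

/-- The tuples `(q_1 q'_1, ..., q_m q'_m)`, where the `q_i` and `q'_i` are `2 m` distinct primes, all
larger than `N`. -/
def Tuple {m : ℕ} (N : ℕ) (d : Fin m → ℕ) : Prop :=
  ∃ q q' : Fin m → ℕ, (∀ i, d i = q i * q' i) ∧ (∀ i, (q i).Prime ∧ N < q i) ∧
    (∀ i, (q' i).Prime ∧ N < q' i) ∧ Function.Injective q ∧ Function.Injective q' ∧
    ∀ i j, q i ≠ q' j

/-- All the `2 ^ m` twists by the products of some of the `d_i` have rank zero over `ℚ`, and the
2-primary part of the Tate-Shafarevich group is isomorphic to `(ℤ / 2) ^ k` for some `k` near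
`(3 / 2) log log Z`. -/
def AllTwists {m : ℕ} (η : ℝ) (Z : ℕ) (d : Fin m → ℕ) (c : ℤ × ℤ) : Prop :=
  ∀ T : Finset (Fin m), rk (E (∏ i ∈ T, (d i : ℤ)) c) = 0 ∧
    ∃ k : ℕ, Near η Z k ∧
      Nonempty (AddCommGroup.primaryComponent (Sha (E (∏ i ∈ T, (d i : ℤ)) c)) 2 ≃+
        (Fin k → ZMod 2))

/-! ### Proofs -/

lemma cond_eq (c : ℤ × ℤ) : Pool.Agent.Y679.Cr.cs c = Cond6 c := by
  unfold Pool.Agent.Y679.Cr.cs Pool.Agent.H925R.Szpiro.condS Cond6
  rw [Pool.Agent.Y679.Cr.D_neg, Int.natAbs_neg]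
  refine prod_congr rfl fun p _ => ?_
  by_cases h : (p : ℤ) ∣ c.1
  · rw [if_pos h, if_pos (Int.dvd_neg.2 h)]
  · rw [if_neg h, if_neg fun h' => h (Int.dvd_neg.1 h')]

lemma bdd {f : ℤ × ℤ → ℕ} (hf : Factor f) : Pool.Agent.Y679.Cr.Bdd f :=
  fun c => ⟨(hf c).1, (hf c).2.trans (by norm_num)⟩

lemma Fam_eq (f : ℤ × ℤ → ℕ) (Z : ℕ) :
    Fam f Z = Pool.Agent.Y679.Cr.Gm Pool.Agent.Q17.IG.P4 f Z := by
  ext c
  unfold Fam Pool.Agent.Y679.Cr.Gm Pool.Agent.Q17.IG.P4 Pool.Agent.Q17.IG.Rd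
  rw [Set.mem_ofPred_eq, Set.mem_ofPred_eq, cond_eq]
  constructor
  · rintro ⟨h1, h2, h3, h4⟩
    exact ⟨⟨h1, h2, (Pool.Agent.Q17.IG.cyclic4_iff h1).1 h3⟩, h4⟩
  · rintro ⟨⟨h1, h2, h3⟩, h4⟩
    exact ⟨h1, h2, (Pool.Agent.Q17.IG.cyclic4_iff h1).2 h3, h4⟩

lemma Fam_fin {f : ℤ × ℤ → ℕ} (hf : Factor f) (Z : ℕ) : (Fam f Z).Finite := by
  rw [Fam_eq]
  exact Pool.Agent.Q17.IG.G4_fin (bdd hf) Z

lemma card_tendsto {f : ℤ × ℤ → ℕ} (hf : Factor f) :
    Tendsto (fun Z : ℕ => (Fam f Z).ncard) atTop atTop := by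
  obtain ⟨c, Z0, hc, h⟩ := Pool.Agent.Q17.IG.G4_ge
  rw [← tendsto_natCast_atTop_iff (R := ℝ)]
  have h1 : Tendsto (fun Z : ℕ => c * (Z : ℝ) ^ ((2 : ℝ) / 3)) atTop atTop :=
    Tendsto.const_mul_atTop hc
      ((tendsto_rpow_atTop (by norm_num)).comp tendsto_natCast_atTop_atTop)
  refine tendsto_atTop_mono' atTop (eventually_atTop.2 ⟨Z0, fun Z hZ => ?_⟩) h1
  change c * (Z : ℝ) ^ ((2 : ℝ) / 3) ≤ ((Fam f Z).ncard : ℝ)
  rw [Fam_eq]
  exact h f (bdd hf) Z hZ

lemma prim_equiv {G : Type} [AddCommGroup G]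
    (h : ∀ (k : ℕ) (x : G), (2 ^ k : ℕ) • x = 0 → x + x = 0) {k : ℕ}
    (hc : Nat.card {x : G // x + x = 0} = 2 ^ k) :
    Nonempty (AddCommGroup.primaryComponent G 2 ≃+ (Fin k → ZMod 2)) := by
  have hm : ∀ x : G, x ∈ AddCommGroup.primaryComponent G 2 ↔ x + x = 0 := by
    intro x
    constructor
    · rintro ⟨j, hj⟩
      exact h j x hj
    · intro hx
      refine ⟨1, ?_⟩
      rw [pow_one, two_nsmul]
      exact hx
  let e : AddCommGroup.primaryComponent G 2 ≃ {x : G // x + x = 0} :=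
    Equiv.subtypeEquivRight hm
  have hcard : Nat.card (AddCommGroup.primaryComponent G 2) = 2 ^ k := by
    rw [← hc]
    exact Nat.card_congr e
  have hfin : Finite (AddCommGroup.primaryComponent G 2) := by
    apply Nat.finite_of_card_ne_zero
    rw [hcard]
    positivity
  have hmod : ∀ x : AddCommGroup.primaryComponent G 2, 2 • x = 0 := fun x => Subtype.ext (by
    have h1 := (hm x.1).1 x.2
    rw [two_nsmul]
    exact h1)
  let _ : Module (ZMod 2) (AddCommGroup.primaryComponent G 2) := AddCommGroup.zmodModule hmod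
  have : Module.Finite (ZMod 2) (AddCommGroup.primaryComponent G 2) := Module.Finite.of_finite
  have h1 : Nat.card (AddCommGroup.primaryComponent G 2) =
      2 ^ Module.finrank (ZMod 2) (AddCommGroup.primaryComponent G 2) := by
    rw [Module.natCard_eq_pow_finrank (K := ZMod 2), Nat.card_zmod]
  rw [hcard] at h1
  have h2 : k = Module.finrank (ZMod 2) (AddCommGroup.primaryComponent G 2) :=
    Nat.pow_right_injective le_rfl h1
  subst h2
  exact ⟨(Module.finBasis (ZMod 2) (AddCommGroup.primaryComponent G 2)).equivFun.toAddEquiv⟩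

lemma prod_ne {m N : ℕ} {d : Fin m → ℕ} (hd : Tuple N d) (T : Finset (Fin m)) :
    ∏ i ∈ T, (d i : ℤ) ≠ 0 := by
  obtain ⟨q, q', h1, h2, h3, -⟩ := hd
  refine prod_ne_zero_iff.2 fun i _ => ?_
  rw [h1 i]
  exact_mod_cast mul_ne_zero (h2 i).1.ne_zero (h3 i).1.ne_zero

/-- the curves with an exceptional group -/
def Bad (η : ℝ) (Z : ℕ) (D : ℤ) : Set (ℤ × ℤ) := {c | ¬ Pool.Agent.Q17.LS.Ok η (Z : ℝ)
  (Pool.Agent.W307.RT.Sh (D ^ 2 * c.1) (D ^ 3 * c.2))}

lemma all_of {m N : ℕ} {d : Fin m → ℕ} (hd : Tuple N d) {η : ℝ} {Z : ℕ} {c : ℤ × ℤ}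
    (h : Pool.Agent.Q17.IG.Q4 (Pool.Agent.Y667.QK.TwS (fun j => (d j : ℤ))) c)
    (hok : ∀ T : Finset (Fin m), c ∉ Bad η Z (∏ i ∈ T, (d i : ℤ))) :
    AllTwists η Z d c := by
  obtain ⟨c', hS, hT, e, q, u, r, L⟩ := h
  intro T
  obtain ⟨h1, h2⟩ := Pool.Agent.Q17.QF.zeroD L hT (prod_ne hd T) (hS T).1 (hS T).2
  obtain ⟨k, hk, hc⟩ := not_not.1 (hok T)
  exact ⟨h1, k, hk, prim_equiv h2 hc⟩

/-- the exceptional curves -/
lemma bad_le {D : ℤ} (hD : D ≠ 0) {η ε : ℝ} (hη : 0 < η) (hε : 0 < ε) {f : ℤ × ℤ → ℕ}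
    (hf : Factor f) : ∀ᶠ Z : ℕ in atTop, ((Fam f Z ∩ Bad η Z D).ncard : ℝ) ≤
      ε * ((Fam f Z).ncard : ℝ) := by
  obtain ⟨Z0, h⟩ := Pool.Agent.Q17.LS.CD.cdr D hD η ε hη hε
  filter_upwards [eventually_ge_atTop Z0] with Z hZ
  rw [Fam_eq]
  exact h f (bdd hf) Z hZ

lemma pos_card {f : ℤ × ℤ → ℕ} (hf : Factor f) :
    ∀ᶠ Z : ℕ in atTop, (0 : ℝ) < ((Fam f Z).ncard : ℝ) := by
  filter_upwards [(card_tendsto hf).eventually_gt_atTop 0] with Z hZ
  exact_mod_cast hZ

/-- **Theorem.** Order the elliptic curves over `ℚ` with a rational cyclic subgroup of order 4 by the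
conductor (times an arbitrary factor as in `Factor`), with no bound on the height or on the
discriminant. There are finitely many curves of size at most `Z`, and their number tends to infinity.
(1) For all integers `D ≠ 0` and `η > 0`, for 100 percent of these curves `E` the number of the
elements `x` of the Tate-Shafarevich group of the twist `E^D` with `2 x = 0` is `2 ^ k` for some `k`
with `|k - (3 / 2) log log Z| ≤ η log log Z`.
(2) For all `m` and `N` there are a finite list `L` of tuples `(d_1, ..., d_m)` of products of two primes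
larger than `N`, the `2 m` primes distinct, and `δ > 0` such that for every `η > 0`, every factor and
all large `Z` for some tuple in `L` at least a proportion `δ` of these curves `E` has the property that
all the `2 ^ m` quadratic twists of `E` by the products of some of the `d_i` (among them `E`) have rank
zero over `ℚ` and the 2-primary part of their Tate-Shafarevich group is isomorphic to `(ℤ / 2) ^ k` for
some `k` with `|k - (3 / 2) log log Z| ≤ η log log Z`. -/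
theorem result :
    (∀ f : ℤ × ℤ → ℕ, Factor f → (∀ Z : ℕ, (Fam f Z).Finite) ∧
      Tendsto (fun Z : ℕ => (Fam f Z).ncard) atTop atTop) ∧
    (∀ D : ℤ, D ≠ 0 → ∀ η : ℝ, 0 < η → ∀ f : ℤ × ℤ → ℕ, Factor f →
      Tendsto (fun Z : ℕ => proportion f {c | ∃ k : ℕ, Near η Z k ∧
        Nat.card {x : Sha (E D c) // x + x = 0} = 2 ^ k} Z) atTop (𝓝 1)) ∧
    ∀ m N : ℕ, ∃ L : Finset (Fin m → ℕ), (∀ d ∈ L, Tuple N d) ∧ ∃ δ : ℝ, 0 < δ ∧
      ∀ η : ℝ, 0 < η → ∀ f : ℤ × ℤ → ℕ, Factor f → ∀ᶠ Z : ℕ in atTop, ∃ d ∈ L,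
        δ ≤ proportion f {c | AllTwists η Z d c} Z := by
  classical
  refine ⟨fun f hf => ⟨Fam_fin hf, card_tendsto hf⟩, fun D hD η hη f hf => ?_, fun m N => ?_⟩
  · rw [Metric.tendsto_atTop]
    intro ε hε
    obtain ⟨Z0, hZ0⟩ := eventually_atTop.1 ((bad_le hD hη (half_pos hε) hf).and (pos_card hf))
    refine ⟨Z0, fun Z hZ => ?_⟩
    obtain ⟨h1, h2⟩ := hZ0 Z hZ
    obtain ⟨S, hS⟩ : ∃ S : Set (ℤ × ℤ), S = {c | ∃ k : ℕ, Near η Z k ∧
        Nat.card {x : Sha (E D c) // x + x = 0} = 2 ^ k} := ⟨_, rfl⟩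
    have hSB : Bad η Z D = Sᶜ := by
      rw [hS]
      rfl
    rw [← hS]
    have h3 : (Fam f Z ∩ S).ncard + (Fam f Z ∩ Bad η Z D).ncard = (Fam f Z).ncard := by
      rw [hSB, ← Set.sdiff_eq]
      exact Set.ncard_inter_add_ncard_sdiff_eq_ncard _ _ (Fam_fin hf Z)
    have h4 : ((Fam f Z ∩ S).ncard : ℝ) + ((Fam f Z ∩ Bad η Z D).ncard : ℝ) =
        ((Fam f Z).ncard : ℝ) := by exact_mod_cast h3
    have h5 : proportion f S Z = 1 - ((Fam f Z ∩ Bad η Z D).ncard : ℝ) / (Fam f Z).ncard := by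
      unfold proportion
      rw [eq_sub_iff_add_eq, ← add_div, h4, div_self h2.ne']
    rw [h5, Real.dist_eq]
    have h6 : ((Fam f Z ∩ Bad η Z D).ncard : ℝ) / (Fam f Z).ncard ≤ ε / 2 := by
      rw [div_le_iff₀ h2]
      exact h1
    have h7 : 0 ≤ ((Fam f Z ∩ Bad η Z D).ncard : ℝ) / (Fam f Z).ncard := by positivity
    rw [abs_lt]
    constructor <;> linarith
  · obtain ⟨L, hL, hpos⟩ := Pool.Agent.Q17.QF.simul m N
    obtain ⟨δ, hδ, h⟩ := Pool.Agent.Q17.QF.posCL hpos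
    refine ⟨L, hL, δ / 2, by positivity, fun η hη f hf => ?_⟩
    obtain ⟨M, hM⟩ : ∃ M : ℝ, M = (2 : ℝ) ^ m := ⟨_, rfl⟩
    have hM0 : 0 < M := by
      rw [hM]
      positivity
    have hex : ∀ᶠ Z : ℕ in atTop, ∀ d ∈ L, ∀ T ∈ (univ : Finset (Finset (Fin m))),
        ((Fam f Z ∩ Bad η Z (∏ i ∈ T, (d i : ℤ))).ncard : ℝ) ≤
          δ / (2 * M) * ((Fam f Z).ncard : ℝ) := by
      rw [Filter.eventually_all_finset]
      intro d hd
      rw [Filter.eventually_all_finset]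
      intro T _
      exact bad_le (prod_ne (hL d hd) T) hη (by positivity) hf
    filter_upwards [h f (bdd hf), hex, pos_card hf] with Z hZ hbad hpc
    obtain ⟨d, hd, h1⟩ := hZ
    refine ⟨d, hd, ?_⟩
    rw [← Fam_eq, le_div_iff₀ hpc] at h1
    unfold proportion
    rw [le_div_iff₀ hpc]
    have h2 : Fam f Z ∩ {k | Pool.Agent.Q17.IG.Q4
        (Pool.Agent.Y667.QK.TwS (fun j => (d j : ℤ))) k} ⊆
        (Fam f Z ∩ {c | AllTwists η Z d c}) ∪
          ⋃ T ∈ (univ : Finset (Finset (Fin m))), (Fam f Z ∩ Bad η Z (∏ i ∈ T, (d i : ℤ))) := by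
      rintro c ⟨hc1, hc2⟩
      by_cases hok : ∀ T : Finset (Fin m), c ∉ Bad η Z (∏ i ∈ T, (d i : ℤ))
      · exact Or.inl ⟨hc1, all_of (hL d hd) hc2 hok⟩
      · push Not at hok
        obtain ⟨T, hT⟩ := hok
        exact Or.inr (Set.mem_iUnion₂.2 ⟨T, mem_univ T, hc1, hT⟩)
    have hfin2 : (⋃ T ∈ (univ : Finset (Finset (Fin m))),
        (Fam f Z ∩ Bad η Z (∏ i ∈ T, (d i : ℤ)))).Finite :=
      (Fam_fin hf Z).subset (Set.iUnion₂_subset fun T _ => Set.inter_subset_left)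
    have h3 : (Fam f Z ∩ {k | Pool.Agent.Q17.IG.Q4
        (Pool.Agent.Y667.QK.TwS (fun j => (d j : ℤ))) k}).ncard ≤
        (Fam f Z ∩ {c | AllTwists η Z d c}).ncard +
          ∑ T : Finset (Fin m), (Fam f Z ∩ Bad η Z (∏ i ∈ T, (d i : ℤ))).ncard := by
      refine (Set.ncard_le_ncard h2
        (((Fam_fin hf Z).subset Set.inter_subset_left).union hfin2)).trans
        ((Set.ncard_union_le _ _).trans (Nat.add_le_add_left ?_ _))
      exact Finset.set_ncard_biUnion_le _ _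
    have h4 : ((Fam f Z ∩ {k | Pool.Agent.Q17.IG.Q4
        (Pool.Agent.Y667.QK.TwS (fun j => (d j : ℤ))) k}).ncard : ℝ) ≤
        ((Fam f Z ∩ {c | AllTwists η Z d c}).ncard : ℝ) +
          ∑ T : Finset (Fin m), ((Fam f Z ∩ Bad η Z (∏ i ∈ T, (d i : ℤ))).ncard : ℝ) := by
      exact_mod_cast h3
    have h5 : ∑ T : Finset (Fin m), ((Fam f Z ∩ Bad η Z (∏ i ∈ T, (d i : ℤ))).ncard : ℝ) ≤
        δ / 2 * ((Fam f Z).ncard : ℝ) := by
      calc ∑ T : Finset (Fin m), ((Fam f Z ∩ Bad η Z (∏ i ∈ T, (d i : ℤ))).ncard : ℝ) ≤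
            ∑ _T : Finset (Fin m), δ / (2 * M) * ((Fam f Z).ncard : ℝ) :=
            sum_le_sum fun T hT => hbad d hd T hT
        _ = M * (δ / (2 * M) * ((Fam f Z).ncard : ℝ)) := by
            rw [sum_const, card_univ, Fintype.card_finset, Fintype.card_fin, nsmul_eq_mul, hM]
            push_cast
            ring
        _ = δ / 2 * ((Fam f Z).ncard : ℝ) := by
            field_simp
    linarith

end Pool.Agent.Results.MP_9c97e9_nt.RankZeroLargeSha
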