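import Pool.Agent.Q160.JX.Joint
import Pool.Agent.Results.MP_4a9ea6_nt.TwoPartTwistsX049

/-!
# The formula modulo two for several twists of `X_0(49)` at the same time

`E_D : y² + x y = x³ - (3 D + 1) / 4 x² - 2 D² x - D³` is the quadratic twist by `D` of `X_0(49)`, the elliptic curve of
conductor `49` with complex multiplication by the integers of `ℚ(√-7)`. The class consists of the squarefree `D ≥ 1` whose
prime factors are `≡ 1 mod 8` and split in `ℚ(√-7)`, or `≡ 5 mod 8` and inert; with `m` and `D` it contains the squarefree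
part `star m D` of `m D`, and `E_(star m D)` is the twist by `D` of the curve `E_m`. Let
`z(D) = L(E_D, 1) #E_D(ℚ)_tors² / (Ω ∏ c_p)`, the order of `Ш(E_D/ℚ)` predicted by the formula if the rank is `0`.

1. For every `D` of the class `z(D)` is integral at the primes above two, and either both sides of the formula are odd
   (`BothOdd D`: `E_D(ℚ)` is finite, `Ш(E_D/ℚ)[2^∞] = 0`, `L(E_D, 1) ≠ 0`, and `z(D)` is a unit at all the primes above two), or both
   sides are even (`BothEven D`: `E_D(ℚ)` is infinite or `Ш(E_D/ℚ)[2] ≠ 0`, and `z(D)` is a nonunit at every prime above two).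
2. These alternatives are asymptotically INDEPENDENT for different twists: if `G`, `K` are disjoint finite sets of elements
   of the class, then for exactly the proportion `c ^ #G (1 - c) ^ #K`, `c = ∏_{i ≥ 0} (1 - 2^{-(2i+1)}) = 0.4194...`, of the `D ≡ 1 mod 8`
   of the class both sides of the formula are odd for the twists by `D` of all the curves `E_m`, `m ∈ G`, and both sides are even for
   the twists by `D` of all the curves `E_m`, `m ∈ K`. The number of these `D ≤ X` is at least a constant times `X (log X)^(-3/4)`.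
-/

set_option autoImplicit false

open NumberField IsDedekindDomain Finset Filter

namespace Pool.Agent.Results.MP_9c97e9_nt.SimultaneousTwoPartX049

open Pool.Agent.Results.MP_4a9ea6_nt.TwoPartTwistsX049 (Sha E anOrder MinimalAt)

/-- `Λ` is entire and is the Hasse-Weil `L`-function of `E_D` for `Re s > 2` -/
def IsLFunction (D : ℕ) (Λ : ℂ → ℂ) : Prop :=
  Differentiable ℂ Λ ∧ ∀ s : ℂ, 2 < s.re → Λ s = (E D).LSeries s

/-- `z` is integral at all the primes above two: an odd multiple of `z` is an algebraic integer -/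
def IntegralAtTwo (z : ℂ) : Prop := ∃ m : ℤ, Odd m ∧ _root_.IsIntegral ℤ ((m : ℂ) * z)

/-- Both sides of the formula are odd: `E_D(ℚ)` is finite, the 2-primary part of `Ш(E_D/ℚ)` is zero, `L(E_D, 1) ≠ 0`, and the
predicted order `z` of `Ш` is a unit at all the primes above two. -/
def BothOdd (D : ℕ) : Prop :=
  Finite (E D).toAffine.Point ∧ (∀ (n : ℕ) (x : Sha (E D)), 2 ^ n • x = 0 → x = 0) ∧
  ∃ Λ : ℂ → ℂ, IsLFunction D Λ ∧ Λ 1 ≠ 0 ∧ IntegralAtTwo (anOrder D (Λ 1)) ∧
    IntegralAtTwo (anOrder D (Λ 1))⁻¹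

/-- Both sides of the formula are even: `E_D(ℚ)` is infinite or `Ш(E_D/ℚ)` has an element of order two, and the predicted
order `z` of `Ш` is integral at all the primes above two and a unit at none of them. -/
def BothEven (D : ℕ) : Prop :=
  (Infinite (E D).toAffine.Point ∨ ∃ x : Sha (E D), x ≠ 0 ∧ x + x = 0) ∧
  ∃ Λ : ℂ → ℂ, IsLFunction D Λ ∧ IntegralAtTwo (anOrder D (Λ 1)) ∧
    ∀ (Γ : Type) [LinearOrderedCommGroupWithZero Γ] (v : Valuation ℂ Γ), v 2 < 1 → v (anOrder D (Λ 1)) < 1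

/-- the class: `D` is squarefree, its prime factors are `1` modulo `8` and split in `ℚ(√-7)`, or `5`
modulo `8` and inert in `ℚ(√-7)` -/
def Class (D : ℕ) : Prop := Squarefree D ∧ ∀ p : ℕ, p.Prime → p ∣ D →
  (p % 8 = 1 ∧ (p % 7 = 1 ∨ p % 7 = 2 ∨ p % 7 = 4)) ∨
  (p % 8 = 5 ∧ (p % 7 = 3 ∨ p % 7 = 5 ∨ p % 7 = 6))

/-- the family: the numbers of the class which are `1` modulo `8` -/
def Family (D : ℕ) : Prop := Class D ∧ D % 8 = 1

/-- the squarefree part of the product of two squarefree numbers -/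
def star (m D : ℕ) : ℕ := m * D / (Nat.gcd m D) ^ 2

open Classical in
/-- the number of the `D ≤ X` in the family with the property `Q` -/
noncomputable def count (Q : ℕ → Prop) (X : ℕ) : ℕ := ((Icc 1 X).filter fun D => Family D ∧ Q D).card

section proof

open Pool.Agent.Results.MP_4a9ea6_nt.TwoPartTwistsX049 (Admissible Free RankZeroShaTwo main rz_iff four)
open Q6.XK

theorem class_adm {D : ℕ} (hD : Class D) : Admissible D := by
  refine ⟨hD.1, fun p hp hd => ?_⟩
  rcases hD.2 p hp hd with h | h <;> omega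

theorem triv {D : ℕ} (hD : Class D) : RankZeroShaTwo (E D) ↔ Triv (D : ℤ) := by
  obtain ⟨j, -, hj⟩ := four (class_adm hD)
  exact rz_iff hj

theorem odd_iff {D : ℕ} (hD : Class D) : BothOdd D ↔ Triv (D : ℤ) := by
  rw [← triv hD]
  constructor
  · rintro ⟨h1, h2, -⟩
    exact ⟨h1, fun x hx => h2 1 x (by rw [pow_one, two_nsmul]; exact hx)⟩
  · intro h
    obtain ⟨-, -, -, h1, h2, Λ, h3, h4, h5, -, h6⟩ := main (class_adm hD)
    have hF := h1.1 h
    exact ⟨h.1, h2 hF, Λ, ⟨h3, h4⟩, (h6 hF).1, h5, (h6 hF).2⟩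

theorem even_iff {D : ℕ} (hD : Class D) : BothEven D ↔ ¬ Triv (D : ℤ) := by
  rw [← triv hD]
  constructor
  · rintro ⟨h1, -⟩ h
    rcases h1 with h1 | ⟨x, hx, hx2⟩
    · exact h1.not_finite h.1
    · exact hx (h.2 x hx2)
  · intro h
    obtain ⟨-, -, -, h1, -, Λ, h3, h4, h5, h6, -⟩ := main (class_adm hD)
    have hF : ¬ Free D := fun hF => h (h1.2 hF)
    refine ⟨?_, Λ, ⟨h3, h4⟩, h5, fun Γ _ v hv => lt_of_le_of_ne (h6 Γ v hv).1 fun e => hF ((h6 Γ v hv).2.1 e)⟩
    by_cases hfin : Finite (E D).toAffine.Point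
    · right
      by_contra hx
      push Not at hx
      exact h ⟨hfin, fun x hx2 => by
        by_contra hx0
        exact hx x hx0 hx2⟩
    · exact Or.inl (not_finite_iff_infinite.1 hfin)

end proof

open Classical in
theorem count_congr {Q R : ℕ → Prop} (h : ∀ D, Family D → (Q D ↔ R D)) (X : ℕ) :
    count Q X = Pool.Agent.Q160.JX.count R X := by
  unfold count Pool.Agent.Q160.JX.count
  congr 1
  ext D
  rw [Finset.mem_filter, Finset.mem_filter]
  exact and_congr_right fun _ => and_congr_right fun hD => h D hD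

/-- **Theorem.** -/
theorem result :
    (∀ m D : ℕ, Class m → Class D → Class (star m D) ∧ m * D = star m D * (Nat.gcd m D) ^ 2) ∧
    (∀ D : ℕ, Class D → (∀ v : HeightOneSpectrum (𝓞 ℚ), MinimalAt (E D) v) ∧
      (BothOdd D ∨ BothEven D) ∧ ¬ (BothOdd D ∧ BothEven D)) ∧
    ∃ c : ℝ, 0.4194 < c ∧ c < 0.4195 ∧
      Tendsto (fun n : ℕ => ∏ i ∈ range n, (1 - (1 / 2 : ℝ) ^ (2 * i + 1))) atTop (nhds c) ∧
      ∀ G K : Finset ℕ, (∀ m ∈ G, Class m) → (∀ m ∈ K, Class m) → Disjoint G K →
        Tendsto (fun X : ℕ =>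
            (count (fun D => (∀ m ∈ G, BothOdd (star m D)) ∧ ∀ m ∈ K, BothEven (star m D)) X : ℝ) /
            (count (fun _ => True) X : ℝ)) atTop (nhds (c ^ G.card * (1 - c) ^ K.card)) ∧
        ∃ (a : ℝ) (X₀ : ℕ), 0 < a ∧ ∀ X : ℕ, X₀ ≤ X → a * (X * (Real.log X) ^ (-(3 / 4) : ℝ)) ≤
          (count (fun D => (∀ m ∈ G, BothOdd (star m D)) ∧ ∀ m ∈ K, BothEven (star m D)) X : ℝ) := by
  classical
  obtain ⟨-, hc1, hc2, hT⟩ := Pool.Agent.Q160.JX.const
  refine ⟨fun m D hm hD => Pool.Agent.Q160.JX.star_class hm hD, fun D hD => ⟨?_, ?_, ?_⟩,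
    Pool.Agent.Y703.CQ.c2, hc1, hc2, hT, ?_⟩
  · exact (Pool.Agent.Results.MP_4a9ea6_nt.TwoPartTwistsX049.main (class_adm hD)).1
  · rw [odd_iff hD, even_iff hD]
    exact em _
  · rw [odd_iff hD, even_iff hD]
    exact fun h => h.2 h.1
  intro G K hG hK hd
  obtain ⟨hlim, hlow⟩ := Pool.Agent.Q160.JX.main G K hG hK hd
  have e0 : ∀ X, count (fun _ => True) X = Pool.Agent.Q160.JX.count (fun _ => True) X := fun _ => rfl
  have e : ∀ X, count (fun D => (∀ m ∈ G, BothOdd (star m D)) ∧ ∀ m ∈ K, BothEven (star m D)) X =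
      Pool.Agent.Q160.JX.count (fun D => (∀ m ∈ G, Q6.XK.Triv (Pool.Agent.Q160.JX.star m D : ℤ)) ∧
        ∀ m ∈ K, ¬ Q6.XK.Triv (Pool.Agent.Q160.JX.star m D : ℤ)) X := by
    intro X
    refine count_congr (fun D hD => ?_) X
    exact and_congr
      (forall_congr' fun m => forall_congr' fun hm =>
        odd_iff (Pool.Agent.Q160.JX.star_class (hG m hm) hD.1).1)
      (forall_congr' fun m => forall_congr' fun hm =>
        even_iff (Pool.Agent.Q160.JX.star_class (hK m hm) hD.1).1)
  simp only [e, e0]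
  exact ⟨hlim, hlow⟩

end Pool.Agent.Results.MP_9c97e9_nt.SimultaneousTwoPartX049
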