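import Pool.Agent.Results.MP_9c97e9_nt.FormulaModTwo
import Pool.Agent.Results.MP_4a9ea6_nt.TwoPartTwistsX049
import Pool.Agent.Q7.JF.Two

/-!
# The formula at the central point modulo two for the twists of `X_0(14)` and of `X_0(49)` by the same `D`

`E_D` and `A_D` are the quadratic twists by `D` of the modular curves `X_0(14)` (multiplicative reduction
at `2` and `7`, no complex multiplication) and `X_0(49)` (complex multiplication by `ℚ(√-7)`); they are not
isogenous. The family consists of the squarefree `D ≥ 1`, `D ≡ 1 mod 8`, whose prime factors are `≡ 1 mod 8`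
and split in `ℚ(√-7)` or `≡ 5 mod 8` and inert in `ℚ(√-7)`, without any bound for their number. For such
a `D` the formula holds modulo two for both curves (see the statement): either the curve has finitely many
rational points, `Ш[2^∞] = 0` and `L(·, 1) #tors² / (Ω ∏ c_p)` is a unit at two (*both sides are odd*), or the
curve has infinitely many rational points or an element of order two in `Ш`, and the number
`L(·, 1) #tors² / (Ω ∏ c_p)` is in the maximal ideals above two (*both sides are even*). With `m` and `D` the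
family contains the squarefree part `star m D` of `m D`, and `E_(star m D)` is the twist by `D` of `E_m`.

**Theorem.** Let `G, K` and `G', K'` be finite sets of such numbers `m`, `G ∩ K = ∅`, `G' ∩ K' = ∅` (for
`G', K'` the numbers `m ≡ 5 mod 8` are also allowed). For exactly the proportion
`c ^ (#G + #G') (1 - c) ^ (#K + #K')`, `c = ∏_{i ≥ 0} (1 - 2^{-(2i+1)}) = 0.4194...`, of the `D` in the family both
sides of the formulas are odd for the twists by `D` of the curves `E_m`, `m ∈ G`, and `A_m`, `m ∈ G'`, and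
even for those of the curves `E_m`, `m ∈ K`, and `A_m`, `m ∈ K'`. So the parities of the two sides of the
formulas for `E_D` and for `A_D` are asymptotically independent; for the proportion `c² = 0.1759...` the 2-parts
of both formulas hold with odd sides.

The proof. The matrices of quadratic residue symbols which decide the two cases are for the two curves
the same up to the diagonal, which contains for `E_D` the quadratic characters of `π = (1 + √-7)/2` and for
`A_D` those of `√-7`. The asymptotic independence of the nonsingularity of the matrices is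
proved for any finite number of diagonals and masks which are separated by a set of primes of
positive density (`Pool.Agent.Q7.JF`, an extension of `Pool.Agent.Y687.JQ`, `Pool.Agent.Y697.JQ`, where
there is one diagonal). That the diagonals of `E` and `A` are separated, also after adding quadratic symbols of
fixed primes, is proved with Chebotarev's theorem (`Pool.Agent.W401.Cheb`) and an automorphism `τ` of
order four on `√(π √-7 u)`. The two cases for one `D`: `FormulaModTwo` of this problem and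
`TwoPartTwistsX049` of the problem `MP_4a9ea6_nt`.
-/

set_option autoImplicit false

open Filter Topology

namespace Pool.Agent.Results.MP_9c97e9_nt.TwoCurves

open Pool.Agent.Results.MP_9c97e9_nt.FormulaModTwo (twist IsMinimal ValueIs OddSide TwoPart)
open Pool.Agent.Results.MP_4a9ea6_nt.TwoPartTwistsX049 (Sha anOrder RankZeroShaTwo)

/-- `A_D : y² + x y = x³ - (3 D + 1) / 4 x² - 2 D² x - D³`, the quadratic twist by `D ≡ 1 mod 4` of the
curve `X_0(49) : y² + x y = x³ - x² - 2 x - 1` -/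
abbrev A (D : ℕ) : WeierstrassCurve ℚ := Pool.Agent.Results.MP_4a9ea6_nt.TwoPartTwistsX049.E D

/-- the class: `D` is squarefree, its prime factors are `1` modulo `8` and split in `ℚ(√-7)`, or `5`
modulo `8` and inert in `ℚ(√-7)` -/
def Class (D : ℕ) : Prop := Squarefree D ∧ ∀ p : ℕ, p.Prime → p ∣ D →
  (p % 8 = 1 ∧ (p % 7 = 1 ∨ p % 7 = 2 ∨ p % 7 = 4)) ∨
  (p % 8 = 5 ∧ (p % 7 = 3 ∨ p % 7 = 5 ∨ p % 7 = 6))

/-- the family: the numbers of the class which are `1` modulo `8` -/
def Family (D : ℕ) : Prop := Class D ∧ D % 8 = 1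

/-- the squarefree part of the product of two squarefree numbers -/
def star (m D : ℕ) : ℕ := m * D / (Nat.gcd m D) ^ 2

open Classical in
/-- the number of the `D ≤ X` in the family with the property `Q` -/
noncomputable def count (Q : ℕ → Prop) (X : ℕ) : ℕ :=
  ((Finset.Icc 1 X).filter fun D => Family D ∧ Q D).card

/-- Both sides of the formula for `E_D` are odd: `E_D(ℚ)` is finite, `Ш(E_D/ℚ)[2^∞] = 0` and
`L(E_D, 1) = X Ω ∏ c_p / #E_D(ℚ)_tors²` with a rational number `X ≠ 0` of 2-adic valuation `0`. -/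
def Odd14 (D : ℕ) : Prop := TwoPart (twist D)

/-- Both sides of the formula for `E_D` are even: `E_D(ℚ)` is infinite or `Ш(E_D/ℚ)[2] ≠ 0`, and
`L(E_D, 1) = w y² Ω ∏ c_p / #E_D(ℚ)_tors²` with an even integer `y` (possibly zero) and a rational number
`w ≠ 0` of 2-adic valuation `0`. -/
def Even14 (D : ℕ) : Prop := ¬ OddSide (twist D) ∧
  ∃ (w : ℚ) (y : ℤ), w ≠ 0 ∧ padicValRat 2 w = 0 ∧ Even y ∧ ValueIs (twist D) (w * (y : ℚ) ^ 2)

/-- Both sides of the formula for `A_D` are odd: `A_D(ℚ)` is finite, `Ш(A_D/ℚ)[2^∞] = 0`, and the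
L-function of `A_D` has an entire continuation which is not zero at `s = 1`; the number
`L(A_D, 1) #A_D(ℚ)_tors² / (Ω ∏ c_p)` is a unit at all the places above two. -/
def Odd49 (D : ℕ) : Prop := Finite (A D).toAffine.Point ∧
  (∀ (n : ℕ) (x : Sha (A D)), 2 ^ n • x = 0 → x = 0) ∧
  ∃ Λ : ℂ → ℂ, Differentiable ℂ Λ ∧ (∀ s : ℂ, 2 < s.re → Λ s = (A D).LSeries s) ∧ Λ 1 ≠ 0 ∧
    ∀ (Γ : Type) [LinearOrderedCommGroupWithZero Γ] (v : Valuation ℂ Γ), v 2 < 1 →
      v (anOrder D (Λ 1)) = 1

/-- Both sides of the formula for `A_D` are even: `A_D(ℚ)` is infinite or `Ш(A_D/ℚ)[2] ≠ 0`; and the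
L-function of `A_D` has an entire continuation such that `L(A_D, 1) #A_D(ℚ)_tors² / (Ω ∏ c_p)` is in the
maximal ideals above two (possibly zero). -/
def Even49 (D : ℕ) : Prop := ¬ RankZeroShaTwo (A D) ∧
  ∃ Λ : ℂ → ℂ, Differentiable ℂ Λ ∧ (∀ s : ℂ, 2 < s.re → Λ s = (A D).LSeries s) ∧
    ∀ (Γ : Type) [LinearOrderedCommGroupWithZero Γ] (v : Valuation ℂ Γ), v 2 < 1 →
      v (anOrder D (Λ 1)) < 1

/-! ### the two cases for one `D` -/

open Pool.Agent

lemma fam_iff (D : ℕ) : Family D ↔ Q6.XK.Fam D := (Q7.JF.fam_cls D).symm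

lemma adm {D : ℕ} (h : Family D) (h1 : D ≠ 1) : FormulaModTwo.Adm (D : ℤ) :=
  ⟨by exact_mod_cast h1, Q7.JF.adm_of ((fam_iff D).1 h)⟩

theorem odd14_iff {D : ℕ} (h : Family D) (h1 : D ≠ 1) : Odd14 D ↔ Y17.X.RZ (D : ℤ) := by
  unfold Odd14
  rw [FormulaModTwo.two_iff (adm h h1), Y17.X.rz_iff (adm h h1).2]

theorem dich14 {D : ℕ} (h : Family D) (h1 : D ≠ 1) : Even14 D ↔ ¬ Odd14 D := by
  have h2 := FormulaModTwo.odd_two (adm h h1)
  constructor
  · rintro ⟨h3, -⟩ h4
    exact h3 (h2.2 h4)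
  · intro h3
    have h4 : ¬ OddSide (twist D) := fun h5 => h3 (h2.1 h5)
    obtain ⟨w, y, hw, hw2, hv, hy⟩ := FormulaModTwo.value (adm h h1)
    exact ⟨h4, w, y, hw, hw2, Int.not_odd_iff_even.1 fun h5 => h4 (hy.1 h5), hv⟩

open Pool.Agent.Results.MP_4a9ea6_nt.TwoPartTwistsX049 (Admissible Free main) in
theorem odd49_iff {D : ℕ} (h : Class D) : Odd49 D ↔ Q6.XK.Triv (D : ℤ) := by
  have hA : Admissible D := ⟨h.1, fun p hp hd => by rcases h.2 p hp hd with h | h <;> omega⟩
  obtain ⟨-, -, -, h1, h2, Λ, h3, h4, -, h5, h6⟩ := main hA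
  have hF : Q6.XK.Triv (D : ℤ) ↔ Free D := Q6.XK.triv_crit hA
  rw [hF]
  constructor
  · rintro ⟨k1, k2, -⟩
    exact h1.1 ⟨k1, fun x hx => k2 1 x (by rw [pow_one, two_nsmul]; exact hx)⟩
  · intro k
    exact ⟨(h1.2 k).1, h2 k, Λ, h3, h4, (h6 k).1, fun Γ _ v hv => ((h5 Γ v hv).2).2 k⟩

open Pool.Agent.Results.MP_4a9ea6_nt.TwoPartTwistsX049 (Admissible Free main) in
theorem dich49 {D : ℕ} (h : Class D) : Even49 D ↔ ¬ Odd49 D := by
  have hA : Admissible D := ⟨h.1, fun p hp hd => by rcases h.2 p hp hd with h | h <;> omega⟩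
  obtain ⟨-, -, -, h1, h2, Λ, h3, h4, -, h5, h6⟩ := main hA
  have hF : Q6.XK.Triv (D : ℤ) ↔ Free D := Q6.XK.triv_crit hA
  rw [odd49_iff h, hF]
  constructor
  · rintro ⟨k1, -⟩ k2
    exact k1 (h1.2 k2)
  · intro k
    refine ⟨fun k1 => k (h1.1 k1), Λ, h3, h4, fun Γ _ v hv => ?_⟩
    exact lt_of_le_of_ne (h5 Γ v hv).1 fun h7 => k (((h5 Γ v hv).2).1 h7)

open Classical in
lemma count_eq (Q : ℕ → Prop) (X : ℕ) : count Q X = Q7.JF.cnt Q X := by
  unfold count Q7.JF.cnt
  refine congrArg Finset.card (Finset.ext fun D => ?_)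
  refine (Finset.mem_filter).trans (Iff.trans ?_ (Finset.mem_filter).symm)
  rw [fam_iff]

/-- **The formulas modulo two for the twists of two curves by the same `D`.** -/
theorem result :
    -- the class and the family are closed, `star m D` is `m D` up to a square
    (∀ m D : ℕ, Class m → Class D → Class (star m D) ∧ (m % 8 = 1 → D % 8 = 1 → star m D % 8 = 1) ∧
      m * D = star m D * (Nat.gcd m D) ^ 2) ∧
    -- the formulas modulo two for one `D`
    (∀ D : ℕ, Family D → D ≠ 1 → IsMinimal (twist D) ∧ (Even14 D ↔ ¬ Odd14 D)) ∧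
    (∀ D : ℕ, Class D → (Even49 D ↔ ¬ Odd49 D)) ∧
    ∃ c : ℝ, 0.4194 < c ∧ c < 0.4195 ∧
      Tendsto (fun n : ℕ => ∏ i ∈ Finset.range n, (1 - (1 / 2 : ℝ) ^ (2 * i + 1))) atTop (𝓝 c) ∧
      -- the joint law
      ∀ G G' K K' : Finset ℕ, (∀ m ∈ G, Family m) → (∀ m ∈ G', Class m) → (∀ m ∈ K, Family m) →
        (∀ m ∈ K', Class m) → Disjoint G K → Disjoint G' K' →
        Tendsto (fun X : ℕ =>
          (count (fun D => ((∀ m ∈ G, Odd14 (star m D)) ∧ ∀ m ∈ G', Odd49 (star m D)) ∧
            (∀ m ∈ K, ¬ Odd14 (star m D)) ∧ ∀ m ∈ K', ¬ Odd49 (star m D)) X : ℝ) /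
          (count (fun _ => True) X : ℝ)) atTop
          (𝓝 (c ^ (G.card + G'.card) * (1 - c) ^ (K.card + K'.card))) ∧
        ∃ (a : ℝ) (X₀ : ℕ), 0 < a ∧ ∀ X : ℕ, X₀ ≤ X → a * (X * (Real.log X) ^ (-(3 / 4) : ℝ)) ≤
          (count (fun D => ((∀ m ∈ G, Odd14 (star m D)) ∧ ∀ m ∈ G', Odd49 (star m D)) ∧
            (∀ m ∈ K, ¬ Odd14 (star m D)) ∧ ∀ m ∈ K', ¬ Odd49 (star m D)) X : ℝ) := by
  obtain ⟨-, hc1, hc2, hT⟩ := Q160.JX.const
  refine ⟨fun m D hm hD => ⟨(Q7.JF.st_cls hm hD).1, (Q7.JF.st_cls hm hD).2.2, Q7.JF.st_sq hm⟩,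
    fun D h h1 => ⟨FormulaModTwo.minimal (adm h h1), dich14 h h1⟩, fun D h => dich49 h,
    Y703.CQ.c2, hc1, hc2, hT, ?_⟩
  intro G G' K K' hG hG' hK hK' hd hd'
  have h := Q7.JF.law4 Odd14 Odd49 (fun D h h1 => odd14_iff ((fam_iff D).2 h) h1)
    (fun D h _ => odd49_iff h) G G' K K' (fun m hm => (fam_iff m).1 (hG m hm)) hG'
    (fun m hm => (fam_iff m).1 (hK m hm)) hK' hd hd'
  simp only [count_eq]
  exact h

end Pool.Agent.Results.MP_9c97e9_nt.TwoCurves
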